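import Pool.Agent.W619.Y.Stm4
import Pool.Agent.W303.PG.Kod
import Pool.Agent.W721.PG.EFF2

/-! Growth of the pluricanonical forms on quotients of `Y × C 1 × ... × C n` (part KOD2 of
project PG). -/

set_option autoImplicit false
set_option linter.overlappingInstances false
set_option linter.unusedSectionVars false

universe u v

open FF IntermediateField Pool.Agent.W619.PQ Pool.Agent.W619.PL Pool.Agent.W619.TW
  Pool.Agent.W603.LV Pool.Agent.W619.Y

namespace Pool.Agent.W672.PG

section gen

variable {k L : Type*} [Field k] [Field L] [Algebra k L]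

theorem esy_eq (k : Type*) {L : Type*} [Field k] [Field L] [Algebra k L] {ι : Type*} [Fintype ι]
    (f : ι → L) (r : ℕ) :
    esy f r = MvPolynomial.aeval f (MvPolynomial.esymm ι k r) := by
  simp [MvPolynomial.esymm, esy]

theorem esy_inv {ι : Type*} [Fintype ι] (f : ι → L) (g : L ≃ₐ[k] L) (τ : Equiv.Perm ι)
    (h : ∀ i, g (f i) = f (τ i)) (r : ℕ) : g (esy f r) = esy f r := by
  rw [esy_eq k]
  exact Pool.Agent.W303.PG.esymm_inv f g τ h r

theorem esy_mul {ι : Type*} [Fintype ι] (f : ι → L) (c : L) (r : ℕ) :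
    esy (fun i => f i * c) r = c ^ r * esy f r := by
  unfold esy
  rw [Finset.mul_sum]
  refine Finset.sum_congr rfl fun T hT => ?_
  rw [Finset.prod_mul_distrib, Finset.prod_const, (Finset.mem_powersetCard.1 hT).2, mul_comm]

theorem ge_esy {ι : Type*} [Fintype ι] {w : Place k L} (f : ι → L) (h : ∀ i, Ge w 0 (f i))
    (r : ℕ) : Ge w 0 (esy f r) :=
  Ge.sum _ _ fun _ _ => Pool.Agent.W721.PG.EFF2.ge_prod0 _ _ fun i _ => h i

theorem ge_pow0 {w : Place k L} {f : L} (h : Ge w 0 f) (r : ℕ) : Ge w 0 (f ^ r) := by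
  simpa using h.pow r

theorem basis_mix {d n : ℕ} {ι : Type*} [Fintype ι] (M : IntermediateField k L)
    (F : Fin n → IntermediateField k L) [∀ i, IsFF k (F i)]
    (halg : Algebra.IsAlgebraic ↥(M ⊔ ⨆ i, F i) L) (hn : Algebra.trdeg k L = (d + n : ℕ))
    (hι : Fintype.card ι = d) (y : ι → M) (hy : IsTranscendenceBasis k y) (x : ∀ i, F i)
    (hx : ∀ i, Transcendental k (x i)) :
    IsTranscendenceBasis k (Sum.elim (fun l => (y l : L)) (fun i => (x i : L))) := by
  have h1 : Algebra.IsAlgebraic (Algebra.adjoin k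
      (Set.range (Sum.elim (fun l => (y l : L)) (fun i => (x i : L))))) L := by
    refine alg_adjoin fun z => ?_
    let S : IntermediateField k L := adjoin k
      (Set.range (Sum.elim (fun l => (y l : L)) (fun i => (x i : L))))
    let A : IntermediateField S L := algebraicClosure S L
    have hA : M ⊔ ⨆ i, F i ≤ A.restrictScalars k := by
      refine sup_le (fun z hz => ?_) (iSup_le fun i z hz => ?_)
      · rw [mem_restrictScalars, mem_algebraicClosure_iff]
        have h1 := hy.isAlgebraic.isAlgebraic (⟨z, hz⟩ : M)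
        have hle : Algebra.adjoin k (Set.range y) ≤ S.toSubalgebra.comap M.val := by
          refine Algebra.adjoin_le ?_
          rintro _ ⟨l, rfl⟩
          exact subset_adjoin k _ ⟨Sum.inl l, rfl⟩
        let f : Algebra.adjoin k (Set.range y) →+* S :=
          ((M.val : M →+* L).comp (algebraMap (Algebra.adjoin k (Set.range y)) M)).codRestrict S
            fun y => hle y.2
        have hf : Function.Injective f := by
          intro a b hab
          apply Subtype.ext
          apply Subtype.ext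
          exact congrArg (fun z : S => (z : L)) hab
        exact h1.ringHom_of_comp_eq f (M.val : M →+* L) hf (by ext y; rfl)
      · rw [mem_restrictScalars, mem_algebraicClosure_iff]
        exact alg_of_mem (F i) (hx i) S (subset_adjoin k _ ⟨Sum.inr i, rfl⟩) ⟨z, hz⟩
    let f : ↥(M ⊔ ⨆ i, F i) →+* A := ((M ⊔ ⨆ i, F i).val : ↥(M ⊔ ⨆ i, F i) →+* L).codRestrict A
      fun y => hA y.2
    have h2 : IsAlgebraic A z := by
      have h3 := halg.isAlgebraic z
      refine h3.ringHom_of_comp_eq f (RingHom.id L) f.injective (by ext y; rfl)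
    have h4 : Algebra.IsAlgebraic S A := algebraicClosure.isAlgebraic S L
    exact IsAlgebraic.restrictScalars S h2
  refine Algebra.IsAlgebraic.isTranscendenceBasis_of_lift_le_trdeg_of_finite k _ ?_
  rw [hn]
  simp [hι]

/-- `r l` in `M` algebraically independent and `f i` in `F i` transcendental are algebraically
independent together. -/
theorem indep_mix {d n A : ℕ} (M : IntermediateField k L)
    (F : Fin n → IntermediateField k L) [∀ i, IsFF k (F i)]
    (halg : Algebra.IsAlgebraic ↥(M ⊔ ⨆ i, F i) L) (hn : Algebra.trdeg k L = (d + n : ℕ))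
    (hM : Algebra.trdeg k M = d) (r : Fin A → M) (hr : AlgebraicIndependent k r) (x : ∀ i, F i)
    (hx : ∀ i, Transcendental k (x i)) :
    AlgebraicIndependent k (Sum.elim (fun l => (r l : L)) (fun i => (x i : L))) := by
  classical
  obtain ⟨t, ht1, ht2⟩ := exists_isTranscendenceBasis_superset (R := k) (s := Set.range r)
    hr.to_subtype_range
  have hcard := ht2.cardinalMk_eq_trdeg
  rw [hM] at hcard
  have hfin : Finite t := by
    rw [← Cardinal.mk_lt_aleph0_iff, hcard]
    exact Cardinal.natCast_lt_aleph0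
  have := Fintype.ofFinite t
  have hι : Fintype.card t = d := by
    rw [Cardinal.mk_fintype] at hcard
    exact_mod_cast hcard
  have h1 := basis_mix M F halg hn hι (fun l : t => (l : M)) ht2 x hx
  have h2 := h1.1.comp (Sum.map (fun l : Fin A => (⟨r l, ht1 ⟨l, rfl⟩⟩ : t)) (id : Fin n → Fin n))
    (by
      refine Sum.map_injective.2 ⟨?_, Function.injective_id⟩
      intro a b hab
      exact hr.injective (congrArg (fun z : t => (z : M)) hab))
  have e : Sum.elim (fun l => (r l : L)) (fun i => (x i : L)) =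
      Sum.elim (fun l : t => ((l : M) : L)) (fun i => (x i : L)) ∘
        (Sum.map (fun l : Fin A => (⟨r l, ht1 ⟨l, rfl⟩⟩ : t)) (id : Fin n → Fin n)) := by
    funext z
    rcases z with z | z <;> rfl
  rw [e]
  exact h2

end gen

section main

open scoped Classical in
theorem main (h1 : Pool.Agent.W619.Y.S_EXT.{u, v}) (h2 : Pool.Agent.W619.Y.S_REG2.{u, v})
    (h3 : Pool.Agent.W619.Y.S_SYM.{u, v}) : Pool.Agent.W619.Y.S_KOD2.{u, v} := by
  intro k L _ _ _ _ _ d n A M F hF G _ σ hM hn halg hGM hG N m hN hfree hm hme H x c c' hH hxQ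
    hxt hxg hcQ hc0 hcQ' hc0' hcg hcg' hgood hgood' htr y a hy ha0 hY hai
  have halgK := Pool.Agent.W721.PG.EFF2.alg_fixed G
  have := Fintype.ofFinite G
  -- the coordinates
  have hbasis : IsTranscendenceBasis k
      (Fin.append (fun l => (y l : L)) x : Fin (d + n) → L) := by
    have h := basis_mix M F halg hn (Fintype.card_fin d) y hy (fun i => ⟨x i, (hxQ i).1⟩)
      (fun i => Pool.Agent.W303.PG.trans_sub (F i) (hxQ i).1 (hxt i))
    refine (isTranscendenceBasis_equiv' finSumFinEquiv ?_).1 h
    funext z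
    rcases z with z | z <;> simp
  obtain ⟨hnK, z, hz⟩ := Pool.Agent.W721.PG.EFF2.exists_basis (fixedField G) (d + n) hn
  choose ext hext hext2 hext3 using h1 k (fixedField G) L (d + n) hnK
  obtain ⟨D0, hD0⟩ := Pool.Agent.W721.PG.EFF2.exists_det (fixedField G) (d + n) z hz _ hbasis
    ext hext
  have hfix : ∀ (g : G) (f : fixedField G), (g : L ≃ₐ[k] L) (algebraMap (fixedField G) L f) =
      algebraMap (fixedField G) L f := fun g f => f.2 g
  -- the ratios
  let f : Fin n → L := fun i => if i ∈ H then c' i / c i else x i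
  have hfH : ∀ i ∈ H, f i = c' i / c i := fun i hi => if_pos hi
  have hfF : ∀ i, f i ∈ F i := by
    intro i
    by_cases hi : i ∈ H
    · rw [hfH i hi]; exact div_mem (hcQ' i).1 (hcQ i).1
    · have : f i = x i := if_neg hi
      rw [this]; exact (hxQ i).1
  have hft : ∀ i, Transcendental k (f i) := by
    intro i
    by_cases hi : i ∈ H
    · rw [hfH i hi]; exact htr i hi
    · have : f i = x i := if_neg hi
      rw [this]; exact hxt i
  have hcard : H.ncard = Fintype.card H := by
    rw [← Nat.card_coe_set_eq, Nat.card_eq_fintype_card]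
  generalize hbdef : H.ncard = b at hcard
  let e : Fin b ≃ H := (Fintype.equivFinOfCardEq hcard.symm).symm
  let ratio : Fin (A + b) → L :=
    Fin.append (fun l : Fin A => ((a l.succ : M) : L) / (a 0 : L)) (fun l : Fin b => f (e l))
  have hratio : AlgebraicIndependent k ratio := by
    have h4 := indep_mix M F halg hn hM (fun l : Fin A => a l.succ / a 0) hai
      (fun i => ⟨f i, hfF i⟩) (fun i => Pool.Agent.W303.PG.trans_sub (F i) (hfF i) (hft i))
    have h5 := h4.comp (Sum.map (id : Fin A → Fin A) (fun l : Fin b => ((e l : H) : Fin n)) ∘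
      finSumFinEquiv.symm)
      ((Sum.map_injective.2 ⟨Function.injective_id, fun p q hpq =>
        e.injective (Subtype.ext hpq)⟩).comp finSumFinEquiv.symm.injective)
    have e1 : ratio = Sum.elim (fun l : Fin A => ((a l.succ / a 0 : M) : L)) (fun i => f i) ∘
        (Sum.map (id : Fin A → Fin A) (fun l : Fin b => ((e l : H) : Fin n)) ∘
          finSumFinEquiv.symm) := by
      funext l
      refine Fin.addCases (fun l => ?_) (fun l => ?_) l
      · simp [ratio]
      · simp [ratio]
    rw [e1]
    exact h5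
  -- the forms
  let C : L := ∏ i, c i
  have hC0 : C ≠ 0 := Finset.prod_ne_zero_iff.2 fun i _ => hc0 i
  have haL : ∀ l, (a l : L) ≠ 0 := fun l hl => ha0 l (Subtype.ext hl)
  let B : Fin (A + b + 1) → L := Fin.cons ((a 0 : L) * C) (fun l => (a 0 : L) * C * ratio l)
  have hB : ∀ l, ∃ (a' : L) (b' : Fin n → L), B l = a' * ∏ i, b' i ∧ a' ≠ 0 ∧
      (∀ w : Place k L, IsDivisorial w (d + n) → YGood d m w (fun l => (y l : L)) a') ∧
      (∀ i, b' i ∈ Quo G σ F i) ∧ (∀ i, b' i ≠ 0) ∧
      (∀ i, GoodAt (Quo G σ F i) N m (x i) (b' i)) := by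
    intro l
    refine Fin.cases ?_ (fun l => ?_) l
    · exact ⟨a 0, c, rfl, haL 0, hY 0, hcQ, hc0, hgood⟩
    · refine Fin.addCases (fun l => ?_) (fun l => ?_) l
      · refine ⟨a l.succ, c, ?_, haL _, hY _, hcQ, hc0, hgood⟩
        change (a 0 : L) * C * ratio (Fin.castAdd b l) = (a l.succ : L) * C
        have : ratio (Fin.castAdd b l) = ((a l.succ : M) : L) / (a 0 : L) := by simp [ratio]
        rw [this]
        have := haL 0
        field_simp
      · refine ⟨a 0, fun i => if i = (e l : Fin n) then c' i else c i, ?_, haL _, hY _, ?_, ?_, ?_⟩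
        · change (a 0 : L) * C * ratio (Fin.natAdd A l) = _
          have h6 : ratio (Fin.natAdd A l) = c' (e l) / c (e l) := by
            have : ratio (Fin.natAdd A l) = f (e l) := by simp [ratio]
            rw [this, hfH _ (e l).2]
          rw [h6]
          have h7 : ∀ i, (if i = (e l : Fin n) then c' i else c i) =
              c i * (if i = (e l : Fin n) then c' i / c i else 1) := by
            intro i
            by_cases hi : i = (e l : Fin n)
            · rw [if_pos hi, if_pos hi, mul_div_cancel₀ _ (hc0 i)]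
            · rw [if_neg hi, if_neg hi, mul_one]
          simp only [h7]
          rw [Finset.prod_mul_distrib, Finset.prod_ite_eq' Finset.univ (e l : Fin n)
            (fun i => c' i / c i), if_pos (Finset.mem_univ _), mul_assoc]
        · intro i
          by_cases hi : i = (e l : Fin n)
          · simp only [if_pos hi]; exact hcQ' i
          · simp only [if_neg hi]; exact hcQ i
        · intro i
          by_cases hi : i = (e l : Fin n)
          · simp only [if_pos hi]; exact hc0' i
          · simp only [if_neg hi]; exact hc0 i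
        · intro i
          by_cases hi : i = (e l : Fin n)
          · simp only [if_pos hi]; exact hgood' i
          · simp only [if_neg hi]; exact hgood i
  have hB0 : ∀ l, B l ≠ 0 := by
    intro l
    obtain ⟨a', b', e1, e2, -, -, e3, -⟩ := hB l
    rw [e1]
    exact mul_ne_zero e2 (Finset.prod_ne_zero_iff.2 fun i _ => e3 i)
  let V : (Fin (d + n) → Derivation k (fixedField G) (fixedField G)) → Fin (A + b + 1) → L :=
    fun D l => B l * (Matrix.of fun i j => ext (D j)
      ((Fin.append (fun l => (y l : L)) x : Fin (d + n) → L) i)).det ^ m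
  have hV0 : ∀ l, V D0 l ≠ 0 := fun l => mul_ne_zero (hB0 l) (pow_ne_zero _ hD0)
  have hVr : ∀ l : Fin (A + b), V D0 l.succ / V D0 0 = ratio l := by
    intro l
    change B l.succ * _ / (B 0 * _) = _
    have e1 : B l.succ = B 0 * ratio l := rfl
    rw [mul_div_mul_right _ _ (pow_ne_zero _ hD0), e1, mul_div_cancel_left₀ _ (hB0 0)]
  have hVlin : ∀ (X : Matrix (Fin (d + n)) (Fin (d + n)) (fixedField G))
      (D : Fin (d + n) → Derivation k (fixedField G) (fixedField G)) l,
      V (fun i => ∑ j, X i j • D j) l = V D l * (algebraMap (fixedField G) L X.det) ^ m := by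
    intro X D l
    have e1 : ∀ j, ext (∑ l, X j l • D l) = ∑ l, (algebraMap (fixedField G) L (X j l)) •
        ext (D l) := by
      intro j
      symm
      apply hext2
      intro f
      rw [Pool.Agent.W721.PG.EFF2.der_sum, Pool.Agent.W721.PG.EFF2.der_sum, map_sum]
      refine Finset.sum_congr rfl fun l _ => ?_
      rw [hext, map_mul]
    have e2 : (Matrix.of fun i j => ext (∑ l, X j l • D l)
        ((Fin.append (fun l => (y l : L)) x : Fin (d + n) → L) i)) =
        (Matrix.of fun i j => ext (D j)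
          ((Fin.append (fun l => (y l : L)) x : Fin (d + n) → L) i)) *
          (X.map (algebraMap (fixedField G) L)).transpose := by
      ext i j
      simp only [Matrix.of_apply, Matrix.mul_apply, Matrix.transpose_apply, Matrix.map_apply]
      rw [e1, Pool.Agent.W721.PG.EFF2.der_sum]
      exact Finset.sum_congr rfl fun l _ => mul_comm _ _
    have e3 : (X.map (algebraMap (fixedField G) L)).det = algebraMap (fixedField G) L X.det := by
      rw [RingHom.map_det]
      rfl
    change B l * (Matrix.of fun i j => ext (∑ l, X j l • D l)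
        ((Fin.append (fun l => (y l : L)) x : Fin (d + n) → L) i)).det ^ m = _
    rw [e2, Matrix.det_mul, Matrix.det_transpose, e3, mul_pow]
    change _ = B l * (Matrix.of fun i j => ext (D j)
      ((Fin.append (fun l => (y l : L)) x : Fin (d + n) → L) i)).det ^ m * _
    ring
  -- symmetric functions
  obtain ⟨R, t, r, q, hR, hrq, hs0, hsi⟩ := h3 k L G 1 (A + b)
    (fun g l => (g : L ≃ₐ[k] L) (V D0 l)) (fun l => by
      change V D0 l ≠ 0
      exact hV0 l) (by
      have e1 : (fun l : Fin (A + b) => ((1 : G) : L ≃ₐ[k] L) (V D0 l.succ) /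
          ((1 : G) : L ≃ₐ[k] L) (V D0 0)) = ratio := by
        funext l
        exact hVr l
      rw [e1]
      exact hratio)
  let s : (Fin (d + n) → Derivation k (fixedField G) (fixedField G)) → Fin (A + b + 1) → L :=
    fun D j => esy (fun g : G => (g : L ≃ₐ[k] L) (V D (t j))) (r j) ^ q j
  have hs00 : s D0 0 ≠ 0 := pow_ne_zero _ (hs0 0)
  have hsG : ∀ D j (g : G), (g : L ≃ₐ[k] L) (s D j) = s D j := by
    intro D j g
    change (g : L ≃ₐ[k] L) (esy (fun g : G => (g : L ≃ₐ[k] L) (V D (t j))) (r j) ^ q j) = _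
    rw [map_pow]
    congr 1
    exact esy_inv _ (g : L ≃ₐ[k] L) (Equiv.mulLeft g) (fun i => rfl) _
  have hsA : ∀ (X : Matrix (Fin (d + n)) (Fin (d + n)) (fixedField G))
      (D : Fin (d + n) → Derivation k (fixedField G) (fixedField G)) j,
      s (fun i => ∑ j, X i j • D j) j = (algebraMap (fixedField G) L X.det) ^ (m * R) * s D j := by
    intro X D j
    have e1 : (fun g : G => (g : L ≃ₐ[k] L) (V (fun i => ∑ j, X i j • D j) (t j))) =
        fun g : G => (g : L ≃ₐ[k] L) (V D (t j)) * (algebraMap (fixedField G) L X.det) ^ m := by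
      funext g
      rw [hVlin, map_mul, map_pow, hfix]
    change esy (fun g : G => (g : L ≃ₐ[k] L) (V (fun i => ∑ j, X i j • D j) (t j))) (r j) ^ q j =
      (algebraMap (fixedField G) L X.det) ^ (m * R) *
        esy (fun g : G => (g : L ≃ₐ[k] L) (V D (t j))) (r j) ^ q j
    rw [e1, esy_mul, mul_pow, ← pow_mul, ← pow_mul, hrq j]
  refine ⟨m * R * (A + b + 1), Nat.mul_pos (Nat.mul_pos hm hR) (Nat.succ_pos _), fun j hj => ?_⟩
  let W : ℕ := j * (A + b + 1)
  have hW : m * R * W = j * (m * R * (A + b + 1)) := by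
    change m * R * (j * (A + b + 1)) = _
    ring
  have hrW : ∀ p : Fin (A + b) → Fin j, ∑ l, (p l : ℕ) ≤ W := by
    intro p
    calc ∑ l, (p l : ℕ) ≤ ∑ _l : Fin (A + b), j := Finset.sum_le_sum fun l _ => (p l).2.le
      _ = (A + b) * j := by simp
      _ ≤ j * (A + b + 1) := by nlinarith
  let T : (Fin (A + b) → Fin j) →
      (Fin (d + n) → Derivation k (fixedField G) (fixedField G)) → L := fun p D =>
    s D 0 ^ (W - ∑ l, (p l : ℕ)) * ∏ l, s D l.succ ^ (p l : ℕ)
  have hTG : ∀ p D (g : G), (g : L ≃ₐ[k] L) (T p D) = T p D := by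
    intro p D g
    change (g : L ≃ₐ[k] L) (s D 0 ^ (W - ∑ l, (p l : ℕ)) * ∏ l, s D l.succ ^ (p l : ℕ)) = _
    rw [map_mul, map_pow, hsG, map_prod]
    simp only [map_pow, hsG]
    rfl
  have hTA : ∀ p (X : Matrix (Fin (d + n)) (Fin (d + n)) (fixedField G))
      (D : Fin (d + n) → Derivation k (fixedField G) (fixedField G)),
      T p (fun i => ∑ j, X i j • D j) =
        (algebraMap (fixedField G) L X.det) ^ (j * (m * R * (A + b + 1))) * T p D := by
    intro p X D
    change s (fun i => ∑ j, X i j • D j) 0 ^ (W - ∑ l, (p l : ℕ)) *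
      ∏ l, s (fun i => ∑ j, X i j • D j) l.succ ^ (p l : ℕ) = _ *
        (s D 0 ^ (W - ∑ l, (p l : ℕ)) * ∏ l, s D l.succ ^ (p l : ℕ))
    simp only [hsA, mul_pow]
    rw [Finset.prod_mul_distrib, Finset.prod_pow_eq_pow_sum, ← hW]
    have e1 : (algebraMap (fixedField G) L X.det) ^ (m * R * W) =
        ((algebraMap (fixedField G) L X.det) ^ (m * R)) ^ (W - ∑ l, (p l : ℕ)) *
          ((algebraMap (fixedField G) L X.det) ^ (m * R)) ^ (∑ l, (p l : ℕ)) := by
      rw [← pow_add, Nat.sub_add_cancel (hrW p), ← pow_mul]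
    rw [e1]
    ring
  let ω : (Fin (A + b) → Fin j) →
      (Fin (d + n) → Derivation k (fixedField G) (fixedField G)) → fixedField G :=
    fun p D => ⟨T p D, fun g => hTG p D g⟩
  have hli : LinearIndependent k ω := by
    let φ : ((Fin (d + n) → Derivation k (fixedField G) (fixedField G)) → fixedField G) →ₗ[k] L :=
      (IsScalarTower.toAlgHom k (fixedField G) L).toLinearMap.comp (LinearMap.proj D0)
    refine LinearIndependent.of_comp φ ?_
    have hne : s D0 0 ^ W ≠ 0 := pow_ne_zero _ hs00
    have e1 : φ ∘ ω = (LinearMap.mulLeft k (s D0 0 ^ W)) ∘ fun p : Fin (A + b) → Fin j =>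
        ∏ l : Fin (A + b), (s D0 l.succ / s D0 0) ^ (p l : ℕ) := by
      funext p
      change s D0 0 ^ (W - ∑ l, (p l : ℕ)) * ∏ l : Fin (A + b), s D0 l.succ ^ (p l : ℕ) =
        s D0 0 ^ W * ∏ l : Fin (A + b), (s D0 l.succ / s D0 0) ^ (p l : ℕ)
      simp only [div_pow]
      rw [Finset.prod_div_distrib, Finset.prod_pow_eq_pow_sum]
      have e2 : s D0 0 ^ W = s D0 0 ^ (W - ∑ l, (p l : ℕ)) * s D0 0 ^ (∑ l, (p l : ℕ)) := by
        rw [← pow_add, Nat.sub_add_cancel (hrW p)]
      have e3 : s D0 0 ^ (∑ l, (p l : ℕ)) ≠ 0 := pow_ne_zero _ hs00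
      rw [e2]
      field_simp
    rw [e1]
    exact (Pool.Agent.W303.PG.mono_indep _ hsi).map' (LinearMap.mulLeft k (s D0 0 ^ W))
      (LinearMap.ker_eq_bot.2 (mul_right_injective₀ hne))
  have hcardr : Fintype.card (Fin (A + b) → Fin j) = j ^ (A + b) := by simp
  let e' : Fin (j ^ (A + b)) ≃ (Fin (A + b) → Fin j) := (Fintype.equivFinOfCardEq hcardr).symm
  refine ⟨fun l => ω (e' l), hli.comp e' e'.injective, fun l => ⟨?_, ?_, ?_⟩⟩
  · intro X D
    apply Subtype.ext
    change T (e' l) (fun i => ∑ j, X i j • D j) =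
      algebraMap (fixedField G) L (X.det ^ (j * (m * R * (A + b + 1))) *
        ⟨T (e' l) D, fun g => hTG (e' l) D g⟩)
    rw [hTA, map_mul, map_pow]
    rfl
  · intro v hv _ D hD
    apply Pool.Agent.W721.PG.EFF2.dom_of_reg
    obtain ⟨w, ee, hwv, hreg⟩ := h2 k L d n F G σ hn hG N hN hfree x hxQ hxt hxg v hv
    rw [← hwv.reg]
    have hVreg : ∀ l (g : G), Ge w 0 ((g : L ≃ₐ[k] L) (V D l)) := by
      intro l g
      obtain ⟨a', b', e1, -, e2, e3, e4, e5⟩ := hB l
      change Ge w 0 ((g : L ≃ₐ[k] L) (B l * _))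
      rw [e1]
      exact hreg m b' e3 e4 e5 _ a' e2 D (fun j => ext (D j)) hD (fun j f => hext (D j) f) g
    have hsreg : ∀ l, Ge w 0 (s D l) := fun l =>
      ge_pow0 (ge_esy _ (fun g => hVreg (t l) g) _) _
    change Ge w 0 (s D 0 ^ (W - ∑ i, (e' l i : ℕ)) * ∏ i, s D i.succ ^ (e' l i : ℕ))
    have h8 := (ge_pow0 (hsreg 0) (W - ∑ i, (e' l i : ℕ))).mul
      (Pool.Agent.W721.PG.EFF2.ge_prod0 Finset.univ
        (fun i : Fin (A + b) => s D i.succ ^ (e' l i : ℕ)) fun i _ => ge_pow0 (hsreg i.succ) _)
    simpa using h8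
  · intro v _ hv
    exact hv.elim

end main

end Pool.Agent.W672.PG
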